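import Mathlib
import Pool.Agent.H542R2.RK.Main

set_option autoImplicit false

/-!
Nonlinear local generators: definitions and exact statements of the parts (as `Prop`s).
-/

namespace H542.GN

open Finset

variable {m n N : ℕ}

/-- variables `i` which lie in the set `A v` of exactly one row `v` of `U` and in no set `T v'` of
the other rows of `U` -/
def priv (A T : Fin m → Finset (Fin n)) (U : Finset (Fin m)) : Finset (Fin n) :=
  univ.filter fun i => ∃ v ∈ U, i ∈ A v ∧ ∀ v' ∈ U, v' ≠ v → i ∉ T v'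

/-- boundary expansion -/
def BEx (A T : Fin m → Finset (Fin n)) (u0 : ℕ) : Prop :=
  ∀ U : Finset (Fin m), U.card ≤ u0 → U.card ≤ (priv A T U).card

/-- LOC: no semantic refutation, by lines of small decision tree depth, of a system of (nonlinear)
constraints `con v`, where `con v` depends only on the variables in `T v` and changes its truth
value whenever one variable in `A v` is flipped, if the system has boundary expansion.
(Adapt `Pool/Agent/H542R2/RK/Loc.lean`: local consistency of `(W, β)` is now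
`∀ U, U.card ≤ u0 → ∃ y, (∀ i ∈ W, y i = β i) ∧ ∀ v ∈ U, con v y`.) -/
def LocProp : Prop := ∀ (m n u0 : ℕ) (A T : Fin m → Finset (Fin n)), 1 ≤ u0 → BEx A T u0 →
    ∀ (con : Fin m → (Fin n → Bool) → Prop),
      (∀ v y y', (∀ i ∈ T v, y i = y' i) → (con v y ↔ con v y')) →
      (∀ v, ∀ i ∈ A v, ∀ y, con v (Function.update y i (!(y i))) ↔ ¬ con v y) →
      ∀ (a h : ℕ), 2 * ((a + 1) * h) ≤ u0 → ∀ (S : ℕ) (g : Fin S → (Fin n → Bool) → Bool),
        (∀ p, dep (g p) ≤ h) →
        (∀ j, (∃ v, ∀ y, con v y → g j y = true) ∨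
          ∃ P : Finset (Fin S), P.card ≤ a ∧ (∀ p ∈ P, p < j) ∧
            ∀ y, (∀ p ∈ P, g p y = true) → g j y = true) →
        ∀ j, ∃ y, g j y = true

/-- all variables of row `v` -/
def Tt {T : ℕ} (φ : Fin m → RK.Cl T n) (v : Fin m) : Finset (Fin n) := RK.vars (φ v)

/-- the variables in the positions `≥ 17` -/
def Bt {T : ℕ} (φ : Fin m → RK.Cl T n) (v : Fin m) : Finset (Fin n) :=
  (univ.filter fun i : Fin T => 17 ≤ i.val).image fun i => (φ v i).1

/-- the other variables -/
def At {T : ℕ} (φ : Fin m → RK.Cl T n) (v : Fin m) : Finset (Fin n) := Tt φ v \ Bt φ v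

/-- BEX: from expansion to boundary expansion.  (Let `q1` be the number of variables in exactly one
`Tt v`, `v ∈ U`, and `q2` the number of those in at least two.  Then `q1 + 2 * q2 ≤ T * |U|`,
`q1 + q2 ≥ (T - 8) * |U|`, hence `q1 ≥ (T - 16) * |U| = (tb + 1) * |U|`, and at most `tb * |U|`
of the `q1` variables lie in the sets `Bt v`.) -/
def BexProp : Prop := ∀ (m n tb smax : ℕ) (φ : Fin m → RK.Cl (17 + tb) n), RK.Ex 8 smax φ →
    BEx (At φ) (Tt φ) smax ∧
    (∀ v, (At φ v).card ≤ 17) ∧ (∀ v, (Bt φ v).card ≤ tb) ∧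
    (1 ≤ smax → ∀ v, tb ≤ (Bt φ v).card + 8)

/-- parity of the number of true variables in `A` -/
def par (A : Finset (Fin N)) (z : Fin N → Bool) : Bool :=
  decide (Odd (A.filter fun x => z x = true).card)

/-- the union of the blocks `i ∈ D`; block `i` consists of the variables `i * M + j`, `j < M` -/
def blkset (M : ℕ) (D : Finset (Fin n)) : Finset (Fin N) :=
  univ.filter fun x => ∃ h : x.val / M < n, (⟨x.val / M, h⟩ : Fin n) ∈ D

/-- FLIP: the restriction `RK.rst J x y` and blocks -/
def FlipProp : Prop := ∀ (n M N : ℕ), 1 ≤ M → n * M ≤ N → ∀ (D : Finset (Fin n)),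
    (blkset M D : Finset (Fin N)).card = M * D.card ∧
    (∀ (D' : Finset (Fin n)), Disjoint D D' →
      Disjoint (blkset M D : Finset (Fin N)) (blkset M D')) ∧
    ∀ (J : Fin n → Fin M) (x : Fin N → Bool),
      (∀ y y' : Fin n → Bool, (∀ i ∈ D, y i = y' i) →
        ∀ v ∈ (blkset M D : Finset (Fin N)), RK.rst J x y v = RK.rst J x y' v) ∧
      (∀ i ∈ D, ∀ y : Fin n → Bool,
        par (blkset M D) (RK.rst J x (Function.update y i (!(y i)))) =
          !(par (blkset M D) (RK.rst J x y)))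

/-- EXP: existence of expanding rows, from `RK.P.ex_count` and `RK.P.num_ex` (with `k := T`,
`r := 8`, `N := n`) -/
def ExpProp : Prop := ∀ (T K Q n m : ℕ), 8 < T → m ≤ K * n → 2 * T < n →
    2 * Real.exp 1 * K * T * (2 * Real.exp 1) ^ T ≤ ((2 : ℝ) ^ Q) ^ 6 →
    ∃ φ : Fin m → RK.Cl T n, RK.Ex 8 (n / (T * 2 ^ Q)) φ

end H542.GN
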