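import Mathlib
import Pool.Agent.H542R2.GN.Stubs

set_option autoImplicit false

/-!
G_BEX: from expansion to boundary expansion
-/

namespace H542.GN

open Finset

namespace gbex

variable {m n : ℕ}

theorem card_lt (tb : ℕ) : (univ.filter fun i : Fin (17 + tb) => i.val < 17).card ≤ 17 := by
  have h := Finset.card_le_card_of_injOn (s := univ.filter fun i : Fin (17 + tb) => i.val < 17)
    (t := Finset.range 17) (fun i => i.val)
    (fun i hi => by
      have h1 := (Finset.mem_filter.mp hi).2
      exact Finset.mem_coe.mpr (Finset.mem_range.mpr h1))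
    (fun i _ j _ hij => Fin.ext hij)
  rwa [Finset.card_range] at h

theorem card_ge (tb : ℕ) : (univ.filter fun i : Fin (17 + tb) => 17 ≤ i.val).card ≤ tb := by
  have h := Finset.card_le_card_of_injOn (s := univ.filter fun i : Fin (17 + tb) => 17 ≤ i.val)
    (t := Finset.range tb) (fun i => i.val - 17)
    (fun i hi => by
      have h1 := (Finset.mem_filter.mp hi).2
      have h2 := i.isLt
      exact Finset.mem_coe.mpr (Finset.mem_range.mpr (by
        show i.val - 17 < tb
        omega)))
    (fun i hi j hj hij => by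
      have h1 := (Finset.mem_filter.mp hi).2
      have h2 := (Finset.mem_filter.mp hj).2
      have h3 : i.val - 17 = j.val - 17 := hij
      apply Fin.ext
      omega)
  rwa [Finset.card_range] at h

theorem card_Bt {tb : ℕ} (φ : Fin m → RK.Cl (17 + tb) n) (v : Fin m) : (Bt φ v).card ≤ tb :=
  Finset.card_image_le.trans (card_ge tb)

theorem card_Tt {T : ℕ} (φ : Fin m → RK.Cl T n) (v : Fin m) : (Tt φ v).card ≤ T := by
  unfold Tt RK.vars
  refine Finset.card_image_le.trans ?_
  rw [Finset.card_univ, Fintype.card_fin]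

theorem card_At {tb : ℕ} (φ : Fin m → RK.Cl (17 + tb) n) (v : Fin m) : (At φ v).card ≤ 17 := by
  have hsub : At φ v ⊆ (univ.filter fun i : Fin (17 + tb) => i.val < 17).image
      fun i => (φ v i).1 := by
    intro x hx
    unfold At at hx
    rw [Finset.mem_sdiff] at hx
    obtain ⟨h1, h2⟩ := hx
    unfold Tt RK.vars at h1
    rw [Finset.mem_image] at h1
    obtain ⟨i, -, hi⟩ := h1
    rw [Finset.mem_image]
    refine ⟨i, ?_, hi⟩
    rw [Finset.mem_filter]
    refine ⟨Finset.mem_univ i, ?_⟩
    by_contra hcon
    apply h2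
    unfold Bt
    rw [Finset.mem_image]
    exact ⟨i, Finset.mem_filter.mpr ⟨Finset.mem_univ i, not_lt.mp hcon⟩, hi⟩
  exact (Finset.card_le_card hsub).trans (Finset.card_image_le.trans (card_lt tb))

/-- double counting -/
theorem double (U : Finset (Fin m)) (T : Fin m → Finset (Fin n)) :
    ∑ i ∈ U.biUnion T, (U.filter fun v => i ∈ T v).card = ∑ v ∈ U, (T v).card := by
  have h1 : ∀ i, (U.filter fun v => i ∈ T v).card = ∑ v ∈ U, if i ∈ T v then 1 else 0 := by
    intro i
    rw [Finset.card_filter]
  simp_rw [h1]
  rw [Finset.sum_comm]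
  refine Finset.sum_congr rfl fun v hv => ?_
  rw [← Finset.card_filter]
  congr 1
  ext i
  rw [Finset.mem_filter, Finset.mem_biUnion]
  constructor
  · rintro ⟨-, h⟩
    exact h
  · intro h
    exact ⟨⟨v, hv, h⟩, h⟩

end gbex

open gbex in
theorem g_bex : BexProp := by
  intro m n tb smax φ hEx
  refine ⟨?_, card_At φ, card_Bt φ, ?_⟩
  · intro U hU
    have hE := hEx U hU
    have hE' : (9 + tb) * U.card ≤ (U.biUnion (Tt φ)).card := by
      have e : 17 + tb - 8 = 9 + tb := by omega
      rw [e] at hE
      exact hE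
    have hD := double U (Tt φ)
    have hT : ∑ v ∈ U, (Tt φ v).card ≤ U.card * (17 + tb) := by
      refine (Finset.sum_le_sum fun v _ => card_Tt φ v).trans ?_
      rw [Finset.sum_const, smul_eq_mul]
    have hq : 2 * (U.biUnion (Tt φ)).card ≤
        ∑ i ∈ U.biUnion (Tt φ), (U.filter fun v => i ∈ Tt φ v).card +
        ((U.biUnion (Tt φ)).filter fun i => (U.filter fun v => i ∈ Tt φ v).card = 1).card := by
      rw [Finset.card_filter, ← Finset.sum_add_distrib]
      have h2 : 2 * (U.biUnion (Tt φ)).card = ∑ _i ∈ U.biUnion (Tt φ), 2 := by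
        rw [Finset.sum_const, smul_eq_mul, mul_comm]
      rw [h2]
      refine Finset.sum_le_sum fun i hi => ?_
      have h3 : 1 ≤ (U.filter fun v => i ∈ Tt φ v).card := by
        rw [Finset.mem_biUnion] at hi
        obtain ⟨v, hv, hiv⟩ := hi
        exact Finset.card_pos.mpr ⟨v, Finset.mem_filter.mpr ⟨hv, hiv⟩⟩
      split_ifs with h4
      · omega
      · omega
    have hsub : ((U.biUnion (Tt φ)).filter fun i => (U.filter fun v => i ∈ Tt φ v).card = 1) ⊆
        priv (At φ) (Tt φ) U ∪ U.biUnion (Bt φ) := by
      intro i hi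
      rw [Finset.mem_filter] at hi
      obtain ⟨-, h1⟩ := hi
      obtain ⟨v, hv⟩ := Finset.card_eq_one.mp h1
      have hvU : v ∈ U.filter fun v => i ∈ Tt φ v := by
        rw [hv]; exact Finset.mem_singleton_self v
      rw [Finset.mem_filter] at hvU
      rw [Finset.mem_union]
      by_cases hB : i ∈ Bt φ v
      · right
        exact Finset.mem_biUnion.mpr ⟨v, hvU.1, hB⟩
      · left
        unfold priv
        rw [Finset.mem_filter]
        refine ⟨Finset.mem_univ i, v, hvU.1, ?_, ?_⟩
        · unfold At
          exact Finset.mem_sdiff.mpr ⟨hvU.2, hB⟩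
        · intro v' hv' hne hi'
          apply hne
          have h5 : v' ∈ U.filter fun v => i ∈ Tt φ v := Finset.mem_filter.mpr ⟨hv', hi'⟩
          rw [hv, Finset.mem_singleton] at h5
          exact h5
    have hc := (Finset.card_le_card hsub).trans (Finset.card_union_le _ _)
    have hB : (U.biUnion (Bt φ)).card ≤ U.card * tb :=
      Finset.card_biUnion_le_card_mul U (Bt φ) tb fun v _ => card_Bt φ v
    rw [hD] at hq
    nlinarith
  · intro hs v
    have hE := hEx {v} (by rw [Finset.card_singleton]; exact hs)
    have e : 17 + tb - 8 = 9 + tb := by omega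
    rw [e, Finset.card_singleton, mul_one, Finset.singleton_biUnion] at hE
    have h1 : RK.vars (φ v) ⊆ At φ v ∪ Bt φ v := by
      intro x hx
      rw [Finset.mem_union]
      by_cases hB : x ∈ Bt φ v
      · right; exact hB
      · left
        unfold At
        exact Finset.mem_sdiff.mpr ⟨hx, hB⟩
    have h2 := (Finset.card_le_card h1).trans (Finset.card_union_le _ _)
    have h3 := card_At φ v
    omega

end H542.GN
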