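import Pool.Agent.H542R2.GN.Stubs

set_option autoImplicit false

/-!
EXP: existence of expanding rows.
-/

namespace H542.GN

open Finset

open Classical in
theorem g_exp : ExpProp := by
  intro T K Q n m hT hm hn hQ
  have hn1 : 1 ≤ n := by omega
  have hs : n / (T * 2 ^ Q) * (T * 2 ^ Q) ≤ n := Nat.div_mul_le_self n (T * 2 ^ Q)
  have hs2 : (T - 8) * (n / (T * 2 ^ Q)) ≤ n := by
    have h1 : T - 8 ≤ T * 2 ^ Q := by
      have : 1 ≤ 2 ^ Q := Nat.one_le_two_pow
      calc T - 8 ≤ T := Nat.sub_le _ _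
        _ = T * 1 := (mul_one _).symm
        _ ≤ T * 2 ^ Q := Nat.mul_le_mul_left _ this
    calc (T - 8) * (n / (T * 2 ^ Q)) ≤ (T * 2 ^ Q) * (n / (T * 2 ^ Q)) := Nat.mul_le_mul_right _ h1
      _ = n / (T * 2 ^ Q) * (T * 2 ^ Q) := Nat.mul_comm _ _
      _ ≤ n := hs
  have hm' : m ≤ K * 2 ^ T * n := by
    have : 1 ≤ 2 ^ T := Nat.one_le_two_pow
    calc m ≤ K * n := hm
      _ = K * 1 * n := by ring
      _ ≤ K * 2 ^ T * n := Nat.mul_le_mul_right _ (Nat.mul_le_mul_left _ this)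
  have h1 := RK.P.ex_count (m := m) (k := T) (N := n) 8 (n / (T * 2 ^ Q)) hT hs2 hn1
  have h2 := RK.P.num_ex T 8 K Q n m (n / (T * 2 ^ Q)) (by norm_num) hT hm' hs hn1
    (by simpa using hQ)
  have hnR : (0 : ℝ) < n := by exact_mod_cast (by omega : 0 < n)
  have h3 : (2 : ℝ) * T / n < 1 := by
    rw [div_lt_one hnR]
    exact_mod_cast hn
  have : NeZero n := ⟨by omega⟩
  have : Nonempty (Fin m → RK.Cl T n) := ⟨fun _ _ => ((0 : Fin n), true)⟩
  have hpos : (0 : ℝ) < Fintype.card (Fin m → RK.Cl T n) := by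
    exact_mod_cast Fintype.card_pos
  by_contra hcon
  push Not at hcon
  have hall : (univ.filter fun φ : Fin m → RK.Cl T n => ¬ RK.Ex 8 (n / (T * 2 ^ Q)) φ) = univ := by
    apply filter_true_of_mem
    intro φ _
    exact hcon φ
  rw [hall, card_univ] at h1
  have h4 := h1.trans (mul_le_mul_of_nonneg_left h2 hpos.le)
  have h5 : (Fintype.card (Fin m → RK.Cl T n) : ℝ) * (2 * T / n) <
      Fintype.card (Fin m → RK.Cl T n) * 1 := mul_lt_mul_of_pos_left h3 hpos
  linarith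

end H542.GN
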