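import Pool.Agent.H542R2.GN.Stubs

/-!
# Blocks and parities (helper742)
-/

set_option autoImplicit false

namespace H542.GN

open Finset

theorem G_FLIP_div {M : ℕ} (hM : 1 ≤ M) (i j : ℕ) (hj : j < M) : (i * M + j) / M = i := by
  rw [Nat.mul_comm, Nat.mul_add_div (by omega), Nat.div_eq_of_lt hj, Nat.add_zero]

theorem G_FLIP_mod {M : ℕ} (i j : ℕ) (hj : j < M) : (i * M + j) % M = j := by
  rw [Nat.mul_comm, Nat.mul_add_mod, Nat.mod_eq_of_lt hj]

theorem G_FLIP_lt {n M N : ℕ} (hN : n * M ≤ N) (i : Fin n) (j : Fin M) :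
    i.val * M + j.val < N := by
  have h1 : i.val * M + M ≤ n * M := by
    have h2 : (i.val + 1) * M ≤ n * M := Nat.mul_le_mul_right M i.isLt
    rw [Nat.add_mul, Nat.one_mul] at h2
    exact h2
  have := j.isLt
  omega

theorem G_FLIP_odd (n : ℕ) : decide (Odd (n + 1)) = !decide (Odd n) := by
  by_cases h : Odd n
  · have h1 : ¬ Odd (n + 1) := by rw [Nat.odd_add_one]; exact not_not_intro h
    simp [h, h1]
  · have h1 : Odd (n + 1) := by rw [Nat.odd_add_one]; exact h
    simp [h, h1]

theorem G_FLIP_par {N : ℕ} (A : Finset (Fin N)) (z z' : Fin N → Bool) (v0 : Fin N) (h0 : v0 ∈ A)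
    (h1 : z' v0 = !(z v0)) (h2 : ∀ v, v ≠ v0 → z' v = z v) : par A z' = !(par A z) := by
  classical
  have hA : A = insert v0 (A.erase v0) := (Finset.insert_erase h0).symm
  have hB : (A.erase v0).filter (fun x => z' x = true) =
      (A.erase v0).filter (fun x => z x = true) := by
    apply Finset.filter_congr
    intro x hx
    rw [h2 x (Finset.ne_of_mem_erase hx)]
  have hn : v0 ∉ (A.erase v0).filter (fun x => z x = true) := fun h =>
    Finset.notMem_erase v0 A (Finset.mem_of_mem_filter v0 h)
  unfold par
  rw [hA, Finset.filter_insert, Finset.filter_insert, hB]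
  cases hz : z v0
  · rw [hz] at h1
    have h3 : z' v0 = true := h1
    rw [if_pos h3, if_neg (by simp), Finset.card_insert_of_notMem hn]
    exact G_FLIP_odd _
  · rw [hz] at h1
    have h3 : ¬ (z' v0 = true) := by rw [h1]; simp
    rw [if_neg h3, if_pos rfl, Finset.card_insert_of_notMem hn, G_FLIP_odd, Bool.not_not]

theorem g_flip : FlipProp := by
  classical
  intro n M N hM hN D
  have hM0 : 0 < M := hM
  let e : Fin n × Fin M → Fin N := fun p => ⟨p.1.val * M + p.2.val, G_FLIP_lt hN p.1 p.2⟩
  refine ⟨?_, ?_, ?_⟩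
  · have he : (blkset M D : Finset (Fin N)) = (D ×ˢ (univ : Finset (Fin M))).image e := by
      ext x
      simp only [blkset, mem_filter, mem_univ, true_and, mem_image, mem_product, and_true]
      constructor
      · rintro ⟨h, hD⟩
        refine ⟨(⟨x.val / M, h⟩, ⟨x.val % M, Nat.mod_lt _ hM0⟩), hD, ?_⟩
        apply Fin.ext
        show x.val / M * M + x.val % M = x.val
        rw [Nat.mul_comm]
        exact Nat.div_add_mod _ _
      · rintro ⟨⟨i, j⟩, hi, rfl⟩
        have h1 : (e (i, j)).val / M = i.val := G_FLIP_div hM i.val j.val j.isLt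
        refine ⟨by rw [h1]; exact i.isLt, ?_⟩
        have h2 : (⟨(e (i, j)).val / M, by rw [h1]; exact i.isLt⟩ : Fin n) = i := Fin.ext h1
        rw [h2]
        exact hi
    rw [he, Finset.card_image_of_injOn, Finset.card_product, Finset.card_univ, Fintype.card_fin,
      Nat.mul_comm]
    rintro ⟨i, j⟩ _ ⟨i', j'⟩ _ h
    have h0 : i.val * M + j.val = i'.val * M + j'.val := congrArg Fin.val h
    have h1 : i.val = i'.val := by
      rw [← G_FLIP_div hM i.val j.val j.isLt, h0, G_FLIP_div hM i'.val j'.val j'.isLt]
    have h2 : j.val = j'.val := by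
      rw [← G_FLIP_mod i.val j.val j.isLt, h0, G_FLIP_mod i'.val j'.val j'.isLt]
    rw [Fin.ext h1, Fin.ext h2]
  · intro D' hD
    rw [Finset.disjoint_left]
    intro x hx hx'
    simp only [blkset, mem_filter, mem_univ, true_and] at hx hx'
    obtain ⟨h, h1⟩ := hx
    obtain ⟨h', h2⟩ := hx'
    exact Finset.disjoint_left.mp hD h1 h2
  · intro J x
    refine ⟨?_, ?_⟩
    · intro y y' hy v hv
      simp only [blkset, mem_filter, mem_univ, true_and] at hv
      obtain ⟨h, h1⟩ := hv
      unfold RK.rst
      rw [dif_pos h, dif_pos h, hy _ h1]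
    · intro i hi y
      refine G_FLIP_par (blkset M D) (RK.rst J x y) _ (e (i, J i)) ?_ ?_ ?_
      · simp only [blkset, mem_filter, mem_univ, true_and]
        have h1 : (e (i, J i)).val / M = i.val := G_FLIP_div hM i.val (J i).val (J i).isLt
        refine ⟨by rw [h1]; exact i.isLt, ?_⟩
        have h2 : (⟨(e (i, J i)).val / M, by rw [h1]; exact i.isLt⟩ : Fin n) = i := Fin.ext h1
        rw [h2]
        exact hi
      · have h1 : (e (i, J i)).val / M = i.val := G_FLIP_div hM i.val (J i).val (J i).isLt
        have h3 : (e (i, J i)).val % M = (J i).val := G_FLIP_mod i.val (J i).val (J i).isLt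
        have h4 : (e (i, J i)).val / M < n := by rw [h1]; exact i.isLt
        have h2 : (⟨(e (i, J i)).val / M, h4⟩ : Fin n) = i := Fin.ext h1
        unfold RK.rst
        rw [dif_pos h4, dif_pos h4, h2, if_pos h3, if_pos h3, Function.update_self]
      · intro v hv
        unfold RK.rst
        by_cases h : v.val / M < n
        · rw [dif_pos h, dif_pos h]
          by_cases h5 : v.val % M = (J ⟨v.val / M, h⟩).val
          · rw [if_pos h5, if_pos h5]
            rw [Function.update_of_ne]
            intro h6
            apply hv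
            apply Fin.ext
            show v.val = i.val * M + (J i).val
            have h7 : v.val / M = i.val := congrArg Fin.val h6
            rw [h6] at h5
            rw [← h5, ← h7, Nat.mul_comm]
            exact (Nat.div_add_mod _ _).symm
          · rw [if_neg h5, if_neg h5]
        · rw [dif_neg h, dif_neg h]

end H542.GN
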