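import Mathlib
import Pool.Agent.H542R2.GN.Stubs

set_option autoImplicit false

/-!
LOC: local consistency for systems of nonlinear constraints with boundary expansion, and the
impossibility of semantic refutations whose lines have small decision tree depth (helper99).
-/

namespace H542.GN

open Finset

variable {m n : ℕ}

/-- local consistency of an assignment on the set `W` -/
def LCn (con : Fin m → (Fin n → Bool) → Prop) (u0 : ℕ) (W : Finset (Fin n))
    (b : Fin n → Bool) : Prop :=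
  ∀ U : Finset (Fin m), U.card ≤ u0 → ∃ y : Fin n → Bool, (∀ i ∈ W, y i = b i) ∧
    ∀ v ∈ U, con v y

theorem gloc_mono {con : Fin m → (Fin n → Bool) → Prop} {u0 : ℕ} {W W' : Finset (Fin n)}
    {b : Fin n → Bool} (h : LCn con u0 W b) (hW : W' ⊆ W) : LCn con u0 W' b := by
  intro U hU
  obtain ⟨y, h1, h2⟩ := h U hU
  exact ⟨y, fun i hi => h1 i (hW hi), h2⟩

/-- minimal failing sets -/
theorem gloc_min (F : Finset (Fin m) → Prop) (U : Finset (Fin m)) (hU : F U) :
    ∃ U' ⊆ U, F U' ∧ ∀ v ∈ U', ¬ F (U'.erase v) := by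
  induction U using Finset.strongInduction with
  | H U ih =>
    by_cases h : ∃ v ∈ U, F (U.erase v)
    · obtain ⟨v, hv, hF⟩ := h
      obtain ⟨U', h1, h2, h3⟩ := ih (U.erase v) (erase_ssubset hv) hF
      exact ⟨U', h1.trans (erase_subset v U), h2, h3⟩
    · push Not at h
      exact ⟨U, Subset.rfl, hU, h⟩

/-- the size of a minimal failing set -/
theorem gloc_small {A T : Fin m → Finset (Fin n)} {u0 : ℕ} (hB : BEx A T u0)
    {con : Fin m → (Fin n → Bool) → Prop}
    (hT : ∀ v y y', (∀ i ∈ T v, y i = y' i) → (con v y ↔ con v y'))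
    (hA : ∀ v, ∀ i ∈ A v, ∀ y, con v (Function.update y i (!(y i))) ↔ ¬ con v y)
    {W : Finset (Fin n)} {b : Fin n → Bool} (h : ¬ LCn con u0 W b) :
    ∃ U : Finset (Fin m), U.card ≤ u0 ∧ U.card ≤ W.card ∧
      ∀ y : Fin n → Bool, (∀ i ∈ W, y i = b i) → ∃ v ∈ U, ¬ con v y := by
  unfold LCn at h
  push Not at h
  obtain ⟨U, hU, hf⟩ := h
  obtain ⟨U', h1, h2, h3⟩ := gloc_min
    (fun U => ∀ y : Fin n → Bool, (∀ i ∈ W, y i = b i) → ∃ v ∈ U, ¬ con v y) U hf
  refine ⟨U', (card_le_card h1).trans hU, ?_, h2⟩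
  refine (hB U' ((card_le_card h1).trans hU)).trans (card_le_card ?_)
  intro i hi
  unfold priv at hi
  obtain ⟨v, hv, hiv, hv'⟩ := (mem_filter.mp hi).2
  by_contra hiW
  have h4 := h3 v hv
  push Not at h4
  obtain ⟨y, hy1, hy2⟩ := h4
  have hcv : ¬ con v y := by
    intro hc
    obtain ⟨v', hv'1, hv'2⟩ := h2 y hy1
    by_cases e : v' = v
    · exact hv'2 (e ▸ hc)
    · exact hv'2 (hy2 v' (mem_erase.mpr ⟨e, hv'1⟩))
  obtain ⟨v', hv'1, hv'2⟩ := h2 (Function.update y i (!(y i))) (by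
    intro j hj
    have hji : j ≠ i := fun e => hiW (e ▸ hj)
    rw [Function.update_of_ne hji]
    exact hy1 j hj)
  by_cases e : v' = v
  · subst e
    exact hv'2 ((hA v' i hiv y).mpr hcv)
  · apply hv'2
    rw [hT v' (Function.update y i (!(y i))) y (by
      intro j hj
      have hji : j ≠ i := fun e' => hv' v' hv'1 e (e' ▸ hj)
      rw [Function.update_of_ne hji])]
    exact hy2 v' (mem_erase.mpr ⟨e, hv'1⟩)

theorem gloc_empty {A T : Fin m → Finset (Fin n)} {u0 : ℕ} (hB : BEx A T u0)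
    {con : Fin m → (Fin n → Bool) → Prop}
    (hT : ∀ v y y', (∀ i ∈ T v, y i = y' i) → (con v y ↔ con v y'))
    (hA : ∀ v, ∀ i ∈ A v, ∀ y, con v (Function.update y i (!(y i))) ↔ ¬ con v y)
    (b : Fin n → Bool) : LCn con u0 ∅ b := by
  by_contra h
  obtain ⟨U, _, h2, h3⟩ := gloc_small hB hT hA h
  rw [card_empty] at h2
  have hU : U = ∅ := card_eq_zero.mp (by omega)
  obtain ⟨v, hv, _⟩ := h3 b (by simp)
  rw [hU] at hv
  exact absurd hv (notMem_empty v)

theorem gloc_extend {A T : Fin m → Finset (Fin n)} {u0 : ℕ} (hB : BEx A T u0)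
    {con : Fin m → (Fin n → Bool) → Prop}
    (hT : ∀ v y y', (∀ i ∈ T v, y i = y' i) → (con v y ↔ con v y'))
    (hA : ∀ v, ∀ i ∈ A v, ∀ y, con v (Function.update y i (!(y i))) ↔ ¬ con v y)
    {W : Finset (Fin n)} {b : Fin n → Bool} (h : LCn con u0 W b) (i : Fin n)
    (hW : 2 * (W.card + 1) ≤ u0) :
    ∃ b' : Fin n → Bool, (∀ j ∈ W, b' j = b j) ∧ LCn con u0 (insert i W) b' := by
  by_cases hi : i ∈ W
  · exact ⟨b, fun _ _ => rfl, by rwa [insert_eq_of_mem hi]⟩
  by_contra hcon
  push Not at hcon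
  have hup : ∀ c : Bool, ∀ j ∈ W, Function.update b i c j = b j := by
    intro c j hj
    have hji : j ≠ i := fun e => hi (e ▸ hj)
    rw [Function.update_of_ne hji]
  have hc : ∀ c : Bool, ∃ U : Finset (Fin m), U.card ≤ W.card + 1 ∧
      ∀ y : Fin n → Bool, (∀ j ∈ insert i W, y j = Function.update b i c j) →
        ∃ v ∈ U, ¬ con v y := by
    intro c
    obtain ⟨U, _, h2, h3⟩ := gloc_small hB hT hA (hcon (Function.update b i c) (hup c))
    rw [card_insert_of_notMem hi] at h2
    exact ⟨U, h2, h3⟩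
  choose U hU1 hU2 using hc
  have hcard : (U true ∪ U false).card ≤ u0 := by
    have h1 := card_union_le (U true) (U false)
    have h2 := hU1 true
    have h3 := hU1 false
    omega
  obtain ⟨y, hy1, hy2⟩ := h _ hcard
  obtain ⟨v, hv1, hv2⟩ := hU2 (y i) y (by
    intro j hj
    by_cases hji : j = i
    · subst hji
      rw [Function.update_self]
    · rw [Function.update_of_ne hji]
      exact hy1 j ((mem_insert.mp hj).resolve_left hji))
  apply hv2
  apply hy2
  rcases Bool.eq_false_or_eq_true (y i) with e | e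
  · rw [e] at hv1
    exact mem_union_left _ hv1
  · rw [e] at hv1
    exact mem_union_right _ hv1

/-- `g` can be certified by at most `h` coordinates from every locally consistent assignment -/
def CEn (con : Fin m → (Fin n → Bool) → Prop) (u0 : ℕ)
    (g : (Fin n → Bool) → Bool) (h : ℕ) : Prop :=
  ∀ (W : Finset (Fin n)) (b : Fin n → Bool), LCn con u0 W b → 2 * (W.card + h) ≤ u0 →
    ∃ (W' : Finset (Fin n)) (b' : Fin n → Bool), W ⊆ W' ∧ (∀ j ∈ W, b' j = b j) ∧
      LCn con u0 W' b' ∧ W'.card ≤ W.card + h ∧ ∃ Wp ⊆ W', Wp.card ≤ h ∧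
        ∀ y : Fin n → Bool, (∀ i ∈ Wp, y i = b' i) → g y = g b'

theorem gloc_CE {A T : Fin m → Finset (Fin n)} {u0 : ℕ} (hB : BEx A T u0)
    {con : Fin m → (Fin n → Bool) → Prop}
    (hT : ∀ v y y', (∀ i ∈ T v, y i = y' i) → (con v y ↔ con v y'))
    (hA : ∀ v, ∀ i ∈ A v, ∀ y, con v (Function.update y i (!(y i))) ↔ ¬ con v y)
    {h : ℕ} {g : (Fin n → Bool) → Bool} (hg : DTd h g) :
    CEn con u0 g h := by
  induction h generalizing g with
  | zero =>
    intro W b hLC _
    exact ⟨W, b, Subset.rfl, fun _ _ => rfl, hLC, by simp, ∅, by simp, by simp,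
      fun y _ => hg _ _⟩
  | succ h ih =>
    intro W b hLC hW
    rcases hg with hg | ⟨i, hi⟩
    · obtain ⟨W', b', h1, h2, h3, h4, Wp, h5, h6, h7⟩ := ih hg W b hLC (by omega)
      exact ⟨W', b', h1, h2, h3, by omega, Wp, h5, by omega, h7⟩
    · obtain ⟨b1, hb1, hl1⟩ := gloc_extend hB hT hA hLC i (by omega)
      have hc1 : (insert i W).card ≤ W.card + 1 := card_insert_le i W
      obtain ⟨W', b', h1, h2, h3, h4, Wp, h5, h6, h7⟩ := ih (hi (b1 i)) (insert i W) b1 hl1
        (by omega)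
      have hi' : b' i = b1 i := h2 i (mem_insert_self i W)
      refine ⟨W', b', (subset_insert i W).trans h1, ?_, h3, by omega, insert i Wp, ?_, ?_, ?_⟩
      · intro j hj
        rw [h2 j (mem_insert_of_mem hj), hb1 j hj]
      · exact insert_subset (h1 (mem_insert_self i W)) h5
      · exact (card_insert_le i Wp).trans (by omega)
      · intro y hy
        have e1 : ∀ y : Fin n → Bool, y i = b1 i →
            g y = g (Function.update y i (b1 i)) := by
          intro y hyi
          rw [← hyi, Function.update_eq_self]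
        rw [e1 y ((hy i (mem_insert_self i Wp)).trans hi'), e1 b' hi']
        exact h7 y fun j hj => hy j (mem_insert_of_mem hj)

/-- certifying finitely many functions one after the other -/
theorem gloc_family {con : Fin m → (Fin n → Bool) → Prop} {u0 : ℕ}
    {ι : Type*} [DecidableEq ι] (g : ι → (Fin n → Bool) → Bool) (h : ℕ)
    (hCE : ∀ p, CEn con u0 (g p) h) {W : Finset (Fin n)} {b : Fin n → Bool}
    (hLC : LCn con u0 W b) (P : Finset ι) (hW : 2 * (W.card + P.card * h) ≤ u0) :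
    ∃ (W' : Finset (Fin n)) (b' : Fin n → Bool), W ⊆ W' ∧ (∀ j ∈ W, b' j = b j) ∧
      LCn con u0 W' b' ∧ W'.card ≤ W.card + P.card * h ∧
      (∀ p ∈ P, ∃ Wp ⊆ W', Wp.card ≤ h ∧ ∀ y : Fin n → Bool,
        (∀ i ∈ Wp, y i = b' i) → g p y = g p b') := by
  induction P using Finset.induction_on with
  | empty =>
    exact ⟨W, b, Subset.rfl, fun _ _ => rfl, hLC, by simp, by simp⟩
  | insert p P hp ih =>
    rw [card_insert_of_notMem hp] at hW
    have hmul : (P.card + 1) * h = P.card * h + h := by ring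
    rw [hmul] at hW
    obtain ⟨W1, b1, hW1, hb1, hl1, hc1, hq1⟩ := ih (by omega)
    obtain ⟨W2, b2, hW2, hb2, hl2, hc2, Wp, hWp1, hWp2, hWp3⟩ := hCE p W1 b1 hl1 (by omega)
    refine ⟨W2, b2, hW1.trans hW2, ?_, hl2, ?_, ?_⟩
    · intro j hj
      rw [hb2 j (hW1 hj), hb1 j hj]
    · rw [card_insert_of_notMem hp, hmul]; omega
    · intro q hq
      rcases mem_insert.mp hq with rfl | hq
      · exact ⟨Wp, hWp1, hWp2, hWp3⟩
      · obtain ⟨Wq, h1, h2, h3⟩ := hq1 q hq
        have hb : ∀ i ∈ Wq, b2 i = b1 i := fun i hi => hb2 i (h1 hi)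
        refine ⟨Wq, h1.trans hW2, h2, fun y hy => ?_⟩
        rw [h3 y fun i hi => (hy i hi).trans (hb i hi), h3 b2 hb]

theorem g_loc : LocProp := by
  intro m n u0 A T hu0 hB con hT hA a h hah S g hdep hs j
  have hCE : ∀ p, CEn con u0 (g p) h := fun p =>
    gloc_CE hB hT hA ((DTd_dep _).mono (hdep p))
  have key : ∀ k : ℕ, ∀ j : Fin S, j.val = k → ∀ W : Finset (Fin n), ∀ b : Fin n → Bool,
      W.card ≤ h → LCn con u0 W b → ∃ y : Fin n → Bool, (∀ i ∈ W, y i = b i) ∧
        g j y = true := by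
    intro k
    induction k using Nat.strong_induction_on with
    | _ k ih =>
      intro j hj W b hWh hLC
      rcases hs j with ⟨v, hv⟩ | ⟨P, hPa, hPj, hP⟩
      · obtain ⟨y, hy1, hy2⟩ := hLC {v} (by rw [card_singleton]; exact hu0)
        exact ⟨y, hy1, hv y (hy2 v (mem_singleton_self v))⟩
      · have hc : 2 * (W.card + P.card * h) ≤ u0 := by
          have h1 : P.card * h ≤ a * h := Nat.mul_le_mul_right h hPa
          have h2 : (a + 1) * h = a * h + h := by ring
          omega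
        obtain ⟨W', b', hWW, hb, hl, _, hq⟩ := gloc_family g h hCE hLC P hc
        refine ⟨b', fun i hi => hb i hi, hP b' ?_⟩
        intro p hp
        obtain ⟨Wp, hWp1, hWp2, hWp3⟩ := hq p hp
        have hpj : p.val < k := by
          have := hPj p hp
          rw [← hj]; exact this
        obtain ⟨y, hy1, hy2⟩ := ih p.val hpj p rfl Wp b' hWp2 (gloc_mono hl hWp1)
        rw [← hy2]
        exact (hWp3 y hy1).symm
  obtain ⟨y, _, hy⟩ := key j.val j rfl ∅ (fun _ => false) (by simp)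
    (gloc_empty hB hT hA _)
  exact ⟨y, hy⟩

end H542.GN
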