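import Mathlib
import Pool.Agent.H542R2.GN.Stubs

set_option autoImplicit false

/-!
The lower bound for nonlinear local generators, from the four parts.
-/

namespace H542.GN

open Finset

variable {m n N M : ℕ}

/-- some restriction makes all lines shallow -/
theorem exists_restr (τ B : ℝ) (hτ : 0 < τ) (hM : 1 ≤ M) (s : ℕ)
    (hshr : ∀ ψ : T (Fin N) ⊕ Bool, leavess ψ ≤ s → ∑ J : Fin n → Fin M, ∑ x : Fin N → Bool,
        Real.exp (τ * dep fun y => evs (RK.rst J x y) ψ) ≤ (M : ℝ) ^ n * 2 ^ N * B)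
    (h : ℕ) {S : ℕ} (ψ : Fin S → T (Fin N) ⊕ Bool)
    (hψ : ∀ j, leavess (ψ j) ≤ s) (hS : (S : ℝ) * B < Real.exp (τ * (h + 1))) :
    ∃ (J : Fin n → Fin M) (x : Fin N → Bool),
      ∀ j, (dep fun y => evs (RK.rst J x y) (ψ j)) ≤ h := by
  classical
  by_contra hcon
  push Not at hcon
  have hMpos : (0 : ℝ) < (M : ℝ) ^ n * 2 ^ N := by
    have : (0 : ℝ) < M := by exact_mod_cast hM
    positivity
  have h1 : ((M : ℝ) ^ n * 2 ^ N) * Real.exp (τ * (h + 1)) ≤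
      ∑ p : (Fin n → Fin M) × (Fin N → Bool), ∑ j,
        Real.exp (τ * dep fun y => evs (RK.rst p.1 p.2 y) (ψ j)) := by
    have hc : (M : ℝ) ^ n * 2 ^ N =
        ((univ : Finset ((Fin n → Fin M) × (Fin N → Bool))).card : ℝ) := by
      rw [card_univ]
      simp
    rw [hc, ← nsmul_eq_mul, ← sum_const]
    refine sum_le_sum fun p hp => ?_
    obtain ⟨j, hj⟩ := hcon p.1 p.2
    refine le_trans ?_ (single_le_sum
      (f := fun j => Real.exp (τ * dep fun y => evs (RK.rst p.1 p.2 y) (ψ j)))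
      (fun j _ => (Real.exp_pos _).le) (mem_univ j))
    apply Real.exp_le_exp.mpr
    apply mul_le_mul_of_nonneg_left _ hτ.le
    have : h + 1 ≤ dep fun y => evs (RK.rst p.1 p.2 y) (ψ j) := hj
    exact_mod_cast this
  have h2 : ∑ p : (Fin n → Fin M) × (Fin N → Bool), ∑ j,
        Real.exp (τ * dep fun y => evs (RK.rst p.1 p.2 y) (ψ j)) ≤
      S * ((M : ℝ) ^ n * 2 ^ N * B) := by
    rw [sum_comm]
    calc ∑ j, ∑ p : (Fin n → Fin M) × (Fin N → Bool),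
          Real.exp (τ * dep fun y => evs (RK.rst p.1 p.2 y) (ψ j))
        ≤ ∑ j : Fin S, (M : ℝ) ^ n * 2 ^ N * B := by
          refine sum_le_sum fun j _ => ?_
          rw [Fintype.sum_prod_type]
          exact hshr (ψ j) (hψ j)
      _ = S * ((M : ℝ) ^ n * 2 ^ N * B) := by rw [sum_const, nsmul_eq_mul]; simp
  have h4 : ((M : ℝ) ^ n * 2 ^ N) * Real.exp (τ * (h + 1)) ≤
      ((M : ℝ) ^ n * 2 ^ N) * (S * B) := by
    linarith
  have h5 := le_of_mul_le_mul_left h4 hMpos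
  linarith

/-- there is `Q` with `2 ^ Q ≥ X` and `2 ^ (Q / 4) ≥ Y` -/
theorem exists_Q (X Y : ℝ) : ∃ Q : ℕ, X ≤ 2 ^ Q ∧ Y ≤ ((2 : ℝ) ^ Q) ^ (1 / 4 : ℝ) := by
  obtain ⟨Q, hQ⟩ := pow_unbounded_of_one_lt (max X (|Y| ^ (4 : ℝ))) (by norm_num : (1 : ℝ) < 2)
  refine ⟨Q, (le_max_left _ _).trans hQ.le, ?_⟩
  have h2 : |Y| ^ (4 : ℝ) ≤ 2 ^ Q := (le_max_right _ _).trans hQ.le
  calc Y ≤ |Y| := le_abs_self Y
    _ = (|Y| ^ (4 : ℝ)) ^ (1 / 4 : ℝ) := by
        rw [← Real.rpow_mul (abs_nonneg Y)]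
        norm_num
    _ ≤ ((2 : ℝ) ^ Q) ^ (1 / 4 : ℝ) := Real.rpow_le_rpow (by positivity) h2 (by norm_num)

/-- refutations of the system `xor (par (A r) z) (f r z) = b r` -/
def Refu (A : Fin m → Finset (Fin N)) (f : Fin m → (Fin N → Bool) → Bool) (b : Fin m → Bool)
    (a S : ℕ) (ψ : Fin S → T (Fin N) ⊕ Bool) : Prop :=
  ∀ j, (∃ r, ∀ z : Fin N → Bool, xor (par (A r) z) (f r z) = b r → evs z (ψ j) = true) ∨
      ∃ P : Finset (Fin S), P.card ≤ a ∧ (∀ p ∈ P, p < j) ∧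
        ∀ z, (∀ p ∈ P, evs z (ψ p) = true) → evs z (ψ j) = true

/-- the deterministic part -/
theorem det_gn (hloc : LocProp) (hflip : FlipProp) (hM : 1 ≤ M) (hnM : n * M ≤ N) (u0 : ℕ)
    (hu0 : 1 ≤ u0) {A B : Fin m → Finset (Fin n)} (hAB : ∀ v, Disjoint (A v) (B v))
    (hB : BEx A (fun v => A v ∪ B v) u0)
    (f : Fin m → (Fin N → Bool) → Bool)
    (hf : ∀ r z z', (∀ x ∈ (blkset M (B r) : Finset (Fin N)), z x = z' x) → f r z = f r z')
    (b : Fin m → Bool) (a h : ℕ) (hah : 2 * ((a + 1) * h) ≤ u0) {S : ℕ}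
    (ψ : Fin S → T (Fin N) ⊕ Bool) (J : Fin n → Fin M) (x : Fin N → Bool)
    (hdep : ∀ j, (dep fun y => evs (RK.rst J x y) (ψ j)) ≤ h)
    (hs : Refu (fun r => blkset M (A r)) f b a S ψ) (j : Fin S) :
    ∃ z, evs z (ψ j) = true := by
  have hfl := fun D => hflip n M N hM hnM D
  obtain ⟨y, hy⟩ := hloc m n u0 A (fun v => A v ∪ B v) hu0 hB
    (fun v y => xor (par (blkset M (A v)) (RK.rst J x y)) (f v (RK.rst J x y)) = b v)
    (by
      intro v y y' hyy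
      have e1 : par (blkset M (A v) : Finset (Fin N)) (RK.rst J x y) =
          par (blkset M (A v)) (RK.rst J x y') := by
        unfold par
        congr 3
        apply filter_congr
        intro w hw
        rw [((hfl (A v)).2.2 J x).1 y y' (fun i hi => hyy i (mem_union_left _ hi)) w hw]
      have e2 : f v (RK.rst J x y) = f v (RK.rst J x y') :=
        hf v _ _ fun w hw =>
          ((hfl (B v)).2.2 J x).1 y y' (fun i hi => hyy i (mem_union_right _ hi)) w hw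
      rw [e1, e2])
    (by
      intro v i hi y
      have e1 := ((hfl (A v)).2.2 J x).2 i hi y
      have e2 : f v (RK.rst J x (Function.update y i (!(y i)))) = f v (RK.rst J x y) :=
        hf v _ _ fun w hw =>
          ((hfl (B v)).2.2 J x).1 _ y (fun i' hi' => by
            rw [Function.update_of_ne]
            rintro rfl
            exact disjoint_left.mp (hAB v) hi hi') w hw
      rw [e1, e2]
      cases par (blkset M (A v) : Finset (Fin N)) (RK.rst J x y) <;>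
        cases f v (RK.rst J x y) <;> cases b v <;> simp)
    a h hah S (fun j y => evs (RK.rst J x y) (ψ j)) hdep
    (by
      intro j
      rcases hs j with ⟨r, hr⟩ | ⟨P, hP1, hP2, hP3⟩
      · exact Or.inl ⟨r, fun y hy => hr _ hy⟩
      · exact Or.inr ⟨P, hP1, hP2, fun y hy => hP3 _ hy⟩) j
  exact ⟨_, hy⟩

/-- the numerical part -/
theorem lines_gn (τ Cb Z : ℝ) (hτ : 0 < τ) (hCb : 0 < Cb) (C a T' Q N n M S h : ℕ) (hT : 1 ≤ T')
    (hM : M = 2 ^ (5 * Q)) (hn1 : 1 ≤ n)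
    (hN2 : N ≤ 2 * n * M) (hZ : Z = τ / (2 * (a + 1) * T' * 2 ^ Q))
    (hQ : 16 * Cb * C * (a + 1) * T' / τ ≤ ((2 : ℝ) ^ Q) ^ (1 / 4 : ℝ))
    (hh : h = n / (T' * 2 ^ Q) / (2 * (a + 1))) (hn : 4 * τ / Z ≤ n)
    (hS : (S : ℝ) < (2 : ℝ) ^ (Z / (8 * M) * N)) :
    (S : ℝ) * Real.exp (Cb * (C * N : ℕ) / (M : ℝ) ^ (5 / 4 : ℝ) + τ) <
      Real.exp (τ * (h + 1)) := by
  have hQ0 : (0 : ℝ) < 2 ^ Q := by positivity
  have hTR : (0 : ℝ) < T' := by exact_mod_cast hT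
  have hZ0 : 0 < Z := by rw [hZ]; positivity
  have hMR : (M : ℝ) = 2 ^ (5 * Q) := by rw [hM]; push_cast; rfl
  have hM0 : (0 : ℝ) < M := by rw [hMR]; positivity
  have hnR : (0 : ℝ) < n := by exact_mod_cast hn1
  have hN2R : (N : ℝ) ≤ 2 * n * M := by exact_mod_cast hN2
  have hNR : (0 : ℝ) ≤ N := by positivity
  -- h
  have e1 : (n : ℝ) / (T' * 2 ^ Q) < (n / (T' * 2 ^ Q) : ℕ) + 1 := by
    have hpos : 0 < T' * 2 ^ Q := by positivity
    have := Nat.lt_mul_div_succ n hpos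
    rw [div_lt_iff₀ (by positivity)]
    have h2 : (n : ℝ) < (T' * 2 ^ Q : ℕ) * ((n / (T' * 2 ^ Q) : ℕ) + 1 : ℕ) := by
      exact_mod_cast this
    push_cast at h2 ⊢
    linarith
  have e2 : ((n / (T' * 2 ^ Q) : ℕ) : ℝ) / (2 * (a + 1)) < h + 1 := by
    have hpos : 0 < 2 * (a + 1) := by positivity
    have := Nat.lt_mul_div_succ (n / (T' * 2 ^ Q)) hpos
    rw [← hh] at this
    rw [div_lt_iff₀ (by positivity)]
    have h2 : ((n / (T' * 2 ^ Q) : ℕ) : ℝ) < (2 * (a + 1) : ℕ) * ((h + 1 : ℕ) : ℝ) := by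
      exact_mod_cast this
    push_cast at h2 ⊢
    linarith
  have e3 : Z * n - τ ≤ τ * (h + 1) := by
    have h1 : (n : ℝ) / (T' * 2 ^ Q) / (2 * (a + 1)) - 1 / (2 * (a + 1)) ≤ h + 1 := by
      have : (n : ℝ) / (T' * 2 ^ Q) / (2 * (a + 1)) - 1 / (2 * (a + 1)) =
          ((n : ℝ) / (T' * 2 ^ Q) - 1) / (2 * (a + 1)) := by ring
      rw [this]
      refine le_trans ?_ e2.le
      apply div_le_div_of_nonneg_right _ (by positivity)
      linarith
    have h2 : 1 / (2 * ((a : ℝ) + 1)) ≤ 1 := by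
      rw [div_le_one (by positivity)]
      have : (0 : ℝ) ≤ a := by positivity
      linarith
    have h3 : Z * n = τ * ((n : ℝ) / (T' * 2 ^ Q) / (2 * (a + 1))) := by
      rw [hZ]
      field_simp
    rw [h3]
    nlinarith
  -- shrinkage term
  have e4 : Cb * (C * N : ℕ) / (M : ℝ) ^ (5 / 4 : ℝ) ≤ Z * n / 4 := by
    have hM4 : (M : ℝ) ^ (5 / 4 : ℝ) = M * (2 ^ Q * ((2 : ℝ) ^ Q) ^ (1 / 4 : ℝ)) := by
      have h1 : (5 / 4 : ℝ) = 1 + 1 / 4 := by norm_num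
      rw [h1, Real.rpow_add hM0, Real.rpow_one]
      congr 1
      have h2 : (M : ℝ) = ((2 : ℝ) ^ Q) ^ (5 : ℝ) := by
        rw [hMR, pow_mul', ← Real.rpow_natCast ((2 : ℝ) ^ Q) 5]
        norm_num
      rw [h2, ← Real.rpow_mul hQ0.le]
      have h3 : (5 : ℝ) * (1 / 4) = 1 + 1 / 4 := by norm_num
      rw [h3, Real.rpow_add hQ0, Real.rpow_one]
    have hr : 0 < ((2 : ℝ) ^ Q) ^ (1 / 4 : ℝ) := Real.rpow_pos_of_pos hQ0 _
    rw [hM4, div_le_iff₀ (by positivity)]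
    push_cast
    rw [div_le_iff₀ hτ] at hQ
    have h5 : Cb * (C * N) ≤ Cb * (C * (2 * n * M)) := by
      apply mul_le_mul_of_nonneg_left _ hCb.le
      apply mul_le_mul_of_nonneg_left hN2R (by positivity)
    refine h5.trans ?_
    have h6 : Z * n / 4 * (M * (2 ^ Q * ((2 : ℝ) ^ Q) ^ (1 / 4 : ℝ))) =
        (((2 : ℝ) ^ Q) ^ (1 / 4 : ℝ) * τ) * (n * M / (8 * (a + 1) * T')) := by
      rw [hZ]
      field_simp
      ring
    have h7 : Cb * (C * (2 * n * M)) =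
        (16 * Cb * C * (a + 1) * T') * (n * M / (8 * (a + 1) * T')) := by
      field_simp
      ring
    rw [h6, h7]
    exact mul_le_mul_of_nonneg_right hQ (by positivity)
  -- lines
  have e5 : (2 : ℝ) ^ (Z / (8 * M) * N) ≤ Real.exp (Z * n / 4) := by
    have h1 : Z / (8 * M) * N ≤ Z * n / 4 := by
      rw [div_mul_eq_mul_div, div_le_iff₀ (by positivity)]
      calc Z * N ≤ Z * (2 * n * M) := mul_le_mul_of_nonneg_left hN2R hZ0.le
        _ = Z * n / 4 * (8 * M) := by ring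
    have h2 : 0 ≤ Z / (8 * M) * N := by positivity
    calc (2 : ℝ) ^ (Z / (8 * M) * N) ≤ (Real.exp 1) ^ (Z / (8 * M) * N) := by
          apply Real.rpow_le_rpow (by norm_num) _ h2
          have := Real.add_one_le_exp (1 : ℝ)
          linarith
      _ = Real.exp (Z / (8 * M) * N) := by rw [← Real.exp_mul, one_mul]
      _ ≤ _ := Real.exp_le_exp.mpr h1
  have e6 : 4 * τ ≤ Z * n := by
    rw [div_le_iff₀ hZ0] at hn
    linarith
  calc (S : ℝ) * Real.exp (Cb * (C * N : ℕ) / (M : ℝ) ^ (5 / 4 : ℝ) + τ)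
      < Real.exp (Z * n / 4) * Real.exp (Cb * (C * N : ℕ) / (M : ℝ) ^ (5 / 4 : ℝ) + τ) :=
        mul_lt_mul_of_pos_right (hS.trans_le e5) (Real.exp_pos _)
    _ = Real.exp (Z * n / 4 + (Cb * (C * N : ℕ) / (M : ℝ) ^ (5 / 4 : ℝ) + τ)) :=
        (Real.exp_add _ _).symm
    _ ≤ Real.exp (τ * (h + 1)) := by
        apply Real.exp_le_exp.mpr
        linarith

theorem main_gn (hloc : LocProp) (hbex : BexProp) (hflip : FlipProp) (hexp : ExpProp)
    (a C K q : ℕ) :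
    ∃ (k : ℕ) (c : ℝ), 0 < c ∧ ∃ N0 : ℕ, ∀ N ≥ N0, ∃ A B : Fin (K * N) → Finset (Fin N),
      (∀ r, Disjoint (A r) (B r)) ∧ (∀ r, (A r).card + (B r).card ≤ k) ∧
      (∀ r, q * (A r).card ≤ (B r).card) ∧
      ∀ f : Fin (K * N) → (Fin N → Bool) → Bool,
        (∀ r z z', (∀ x ∈ B r, z x = z' x) → f r z = f r z') →
        ∀ b : Fin (K * N) → Bool, ∀ (S : ℕ) (ψ : Fin S → T (Fin N) ⊕ Bool),
          (S : ℝ) < (2 : ℝ) ^ (c * N) → (∀ j, leavess (ψ j) ≤ C * N) →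
          Refu A f b a S ψ → ∀ j, ∃ z, evs z (ψ j) = true := by
  obtain ⟨τ, Cb, hτ, _, hCb, hshr⟩ := RK.P.shr (5 / 4) (by norm_num) (by norm_num)
  obtain ⟨tb, htb⟩ : ∃ tb, tb = 17 * q + 8 := ⟨_, rfl⟩
  obtain ⟨Q, hQ1, hQ2⟩ := exists_Q
    (4 * Real.exp 1 * K * ((17 + tb : ℕ) : ℝ) * (2 * Real.exp 1) ^ (17 + tb))
    (16 * Cb * C * (a + 1) * ((17 + tb : ℕ) : ℝ) / τ)
  obtain ⟨M, hM⟩ : ∃ M, M = 2 ^ (5 * Q) := ⟨_, rfl⟩
  have hM1 : 1 ≤ M := by rw [hM]; exact Nat.one_le_two_pow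
  have hMR : (1 : ℝ) ≤ M := by exact_mod_cast hM1
  obtain ⟨Z, hZ⟩ : ∃ Z, Z = τ / (2 * (a + 1) * ((17 + tb : ℕ) : ℝ) * 2 ^ Q) := ⟨_, rfl⟩
  have hZ0 : 0 < Z := by rw [hZ]; positivity
  obtain ⟨N0, hN0⟩ := exists_nat_ge (M * (4 * τ / Z) + 2 * M + 0 + 2 * M * (4 * τ / Z))
  refine ⟨(17 + tb) * M, Z / (8 * M), by positivity,
    N0 + 2 * M * (2 * (17 + tb) + 1) + 2 * M * ((17 + tb) * 2 ^ Q) + M, fun N hN => ?_⟩
  -- the number of blocks
  obtain ⟨n, hn⟩ : ∃ n, n = N / M := ⟨_, rfl⟩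
  have hn1 : 1 ≤ n := by
    rw [hn, Nat.le_div_iff_mul_le (by omega)]
    omega
  have hnM : n * M ≤ N := by rw [hn]; exact Nat.div_mul_le_self N M
  have hN2 : N ≤ 2 * n * M := by
    have e1 : N < M * (n + 1) := by rw [hn]; exact Nat.lt_mul_div_succ N (by omega)
    nlinarith
  have hn2 : 2 * (17 + tb) < n := by
    have e1 : 2 * M * (2 * (17 + tb) + 1) ≤ 2 * n * M := by omega
    have e2 : (2 * M) * (2 * (17 + tb) + 1) ≤ (2 * M) * n := by linarith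
    have := Nat.le_of_mul_le_mul_left e2 (by omega)
    omega
  have hn3 : (17 + tb) * 2 ^ Q ≤ n := by
    have e1 : 2 * M * ((17 + tb) * 2 ^ Q) ≤ 2 * n * M := by omega
    have e2 : (2 * M) * ((17 + tb) * 2 ^ Q) ≤ (2 * M) * n := by linarith
    exact Nat.le_of_mul_le_mul_left e2 (by omega)
  have hn4 : 4 * τ / Z ≤ n := by
    have e1 : (N0 : ℝ) ≤ N := by
      have : N0 ≤ N := by omega
      exact_mod_cast this
    have e2 : (N : ℝ) ≤ 2 * n * M := by exact_mod_cast hN2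
    have e3 : 2 * M * (4 * τ / Z) ≤ 2 * M * (n : ℝ) := by
      have : 0 ≤ M * (4 * τ / Z) := by positivity
      linarith
    exact le_of_mul_le_mul_left e3 (by positivity)
  have hm : K * N ≤ 2 * K * M * n := by
    calc K * N ≤ K * (2 * n * M) := Nat.mul_le_mul_left K hN2
      _ = 2 * K * M * n := by ring
  obtain ⟨φ, hφ⟩ := hexp (17 + tb) (2 * K * M) Q n (K * N) (by omega) hm hn2 (by
    have hMR2 : (M : ℝ) = (2 ^ Q) ^ 5 := by
      rw [hM]
      push_cast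
      rw [← pow_mul]
      congr 1
      ring
    calc 2 * Real.exp 1 * ((2 * K * M : ℕ) : ℝ) * ((17 + tb : ℕ) : ℝ) *
          (2 * Real.exp 1) ^ (17 + tb)
        = (M : ℝ) * (4 * Real.exp 1 * K * ((17 + tb : ℕ) : ℝ) *
          (2 * Real.exp 1) ^ (17 + tb)) := by push_cast; ring
      _ ≤ (M : ℝ) * 2 ^ Q := mul_le_mul_of_nonneg_left hQ1 (by positivity)
      _ = (2 ^ Q) ^ 6 := by rw [hMR2]; ring)
  obtain ⟨b1, b2, b3, b4⟩ := hbex (K * N) n tb _ φ hφ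
  have hu1 : 1 ≤ n / ((17 + tb) * 2 ^ Q) := by
    rw [Nat.le_div_iff_mul_le (by positivity)]
    omega
  have hAB : ∀ v, Disjoint (At φ v) (Bt φ v) := fun v => disjoint_left.mpr fun i hi hi' =>
    (mem_sdiff.mp hi).2 hi'
  have hT : ∀ v, At φ v ∪ Bt φ v = Tt φ v := by
    intro v
    unfold At
    apply sdiff_union_of_subset
    unfold Bt Tt RK.vars
    apply image_subset_image
    exact filter_subset _ _
  refine ⟨fun r => blkset M (At φ r), fun r => blkset M (Bt φ r), fun r => ?_, fun r => ?_,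
    fun r => ?_, ?_⟩
  · exact (hflip n M N hM1 hnM (At φ r)).2.1 _ (hAB r)
  · rw [(hflip n M N hM1 hnM (At φ r)).1, (hflip n M N hM1 hnM (Bt φ r)).1, ← mul_add, mul_comm]
    apply Nat.mul_le_mul_right
    have := b2 r
    have := b3 r
    omega
  · rw [(hflip n M N hM1 hnM (At φ r)).1, (hflip n M N hM1 hnM (Bt φ r)).1]
    have e1 := b2 r
    have e2 := b4 hu1 r
    calc q * (M * (At φ r).card) ≤ q * (M * 17) :=
          Nat.mul_le_mul_left q (Nat.mul_le_mul_left M e1)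
      _ = M * (17 * q) := by ring
      _ ≤ M * (Bt φ r).card := Nat.mul_le_mul_left M (by omega)
  · intro f hf b S ψ hS hψ hR j
    obtain ⟨h, hh⟩ : ∃ h, h = n / ((17 + tb) * 2 ^ Q) / (2 * (a + 1)) := ⟨_, rfl⟩
    have hah : 2 * ((a + 1) * h) ≤ n / ((17 + tb) * 2 ^ Q) := by
      rw [hh]
      calc 2 * ((a + 1) * (n / ((17 + tb) * 2 ^ Q) / (2 * (a + 1))))
          = n / ((17 + tb) * 2 ^ Q) / (2 * (a + 1)) * (2 * (a + 1)) := by ring
        _ ≤ _ := Nat.div_mul_le_self _ _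
    have hnum := lines_gn τ Cb Z hτ hCb C a (17 + tb) Q N n M S h (by omega) hM hn1 hN2 hZ hQ2 hh
      hn4 hS
    obtain ⟨J, x, hdep⟩ := exists_restr (n := n) (M := M) τ
      (Real.exp (Cb * (C * N : ℕ) / (M : ℝ) ^ (5 / 4 : ℝ) + τ)) hτ hM1 (C * N) (by
        intro ψ hψ
        refine (hshr n M N hn1 hM1 hnM ψ).trans ?_
        apply mul_le_mul_of_nonneg_left _ (by positivity)
        apply Real.exp_le_exp.mpr
        have e1 : (leavess ψ : ℝ) ≤ ((C * N : ℕ) : ℝ) := by exact_mod_cast hψ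
        have e2 : 0 < (M : ℝ) ^ (5 / 4 : ℝ) := Real.rpow_pos_of_pos (by linarith) _
        have e3 : Cb * leavess ψ ≤ Cb * ((C * N : ℕ) : ℝ) := mul_le_mul_of_nonneg_left e1 hCb.le
        have e4 := div_le_div_of_nonneg_right e3 e2.le
        linarith) h ψ hψ hnum
    refine det_gn hloc hflip hM1 hnM _ hu1 hAB ?_ f hf b a h hah ψ J x hdep hR j
    have : (fun v => At φ v ∪ Bt φ v) = Tt φ := by
      funext v
      exact hT v
    rw [this]
    exact b1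

end H542.GN
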