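import Mathlib
import Pool.Agent.H542R2.GN.Main
import Pool.Agent.H542R2.GN.G_LOC
import Pool.Agent.H542R2.GN.G_BEX
import Pool.Agent.H542R2.GN.G_FLIP
import Pool.Agent.H542R2.GN.G_EXP
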